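import Pool.Agent.H24.Jmp3

set_option autoImplicit false

open Pool.Agent.H24.Jmp

theorem Pool.Agent.Results.MP_a0040c_lc.Lower.result (k : ℕ) (hk : 1 ≤ k) :
    ∃ A : NJFA (4 * k) k, A.lang.IsRegular ∧
      ∀ (σ : Type) (_ : Fintype σ) (M : DFA (Fin k) σ), M.accepts = A.lang →
        2 ^ (k * (k - 1) / 2) ≤ Fintype.card σ :=
  lower k hk
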