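import Pool.Agent.H24.Jmp2

set_option autoImplicit false

open Pool.Agent.H24.Jmp

theorem Pool.Agent.Results.MP_a0040c_lc.Upper.result (n k : ℕ) (A : NJFA n k)
    (h : A.lang.IsRegular) : ∃ (σ : Type) (_ : Fintype σ),
      Fintype.card σ ≤ bound n k ∧ ∃ M : DFA (Fin k) σ, M.accepts = A.lang :=
  main A h
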